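import Mathlib

open MeasureTheory Filter Topology Set Real

namespace Pool.Agent.Results.MP_5288f0_an.Merge

/-- the vortex density -/
noncomputable def a (α t : ℝ) : ℝ := (α * t) ^ (-1 / α)

/-- the rarefaction fan, extended by zero to the left of ρ₂ -/
noncomputable def fan (α m₁ ρ₂ t ρ : ℝ) : ℝ :=
  if ρ₂ < ρ then (((ρ - ρ₂) / (α * m₁ * t)) ^ (-α / (α - 1)) + α * t) ^ (-1 / α) else 0

/-- the density of the two-bump solution with shocks at S₁, S₂ -/
noncomputable def u (α m₁ ρ₁ ρ₂ : ℝ) (S₁ S₂ : ℝ → ℝ) (t ρ : ℝ) : ℝ :=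
  if ρ₁ < ρ ∧ ρ < S₁ t then a α t else if S₁ t < ρ ∧ ρ < S₂ t then fan α m₁ ρ₂ t ρ else 0

/-- the mass function m(t, ρ) -/
noncomputable def mass (α m₁ ρ₁ ρ₂ : ℝ) (S₁ S₂ : ℝ → ℝ) (t ρ : ℝ) : ℝ :=
  ∫ σ in (0 : ℝ)..ρ, u α m₁ ρ₁ ρ₂ S₁ S₂ t σ

/-- the Rankine-Hugoniot speed, with right state up and left state um -/
noncomputable def speed (α m up um : ℝ) : ℝ := m * ((up ^ α - um ^ α) / (up - um))

/-- S₁, S₂ are the shocks of the two-bump solution, up to their first meeting -/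
structure TwoBump (α ρ₁ ρ₂ m₁ m₂ : ℝ) (S₁ S₂ : ℝ → ℝ) : Prop where
  order : ∀ t > 0, ρ₁ ≤ S₁ t ∧ S₁ t ≤ S₂ t
  init : ∃ t₀ > 0, ∀ t ∈ Ioc 0 t₀, S₁ t ≤ ρ₂ ∧ mass α m₁ ρ₁ ρ₂ S₁ S₂ t (S₁ t) = m₁ ∧
    mass α m₁ ρ₁ ρ₂ S₁ S₂ t (S₂ t) = m₁ + m₂
  rh : ∀ t > 0, (∀ s ∈ Ioc 0 t, S₁ s < S₂ s) →
    HasDerivAt S₁ (speed α (mass α m₁ ρ₁ ρ₂ S₁ S₂ t (S₁ t)) (fan α m₁ ρ₂ t (S₁ t)) (a α t)) t ∧
    HasDerivAt S₂ (speed α (mass α m₁ ρ₁ ρ₂ S₁ S₂ t (S₂ t)) 0 (fan α m₁ ρ₂ t (S₂ t))) t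

noncomputable def Φ (β m y : ℝ) : ℝ := (m ^ β + max y 0 ^ β) ^ (1 / β)
noncomputable def ψ (β m y : ℝ) : ℝ := (max y 0 / Φ β m y) ^ (β - 1)

section
variable {β m : ℝ} (hβ : 1 < β) (hm : 0 < m)
include hβ hm

lemma A_pos (y : ℝ) : 0 < m ^ β + max y 0 ^ β :=
  add_pos_of_pos_of_nonneg (rpow_pos_of_pos hm _) (rpow_nonneg (le_max_right _ _) _)

lemma Φ_pos (y : ℝ) : 0 < Φ β m y := rpow_pos_of_pos (A_pos hβ hm y) _

lemma Φ_pow (y : ℝ) : Φ β m y ^ β = m ^ β + max y 0 ^ β := by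
  rw [Φ, ← rpow_mul (A_pos hβ hm y).le, one_div_mul_cancel (by linarith), rpow_one]

lemma lt_Φ (y : ℝ) : max y 0 < Φ β m y := by
  rw [← rpow_lt_rpow_iff (le_max_right _ _) (Φ_pos hβ hm y).le (by linarith : 0 < β),
    Φ_pow hβ hm]
  linarith [rpow_pos_of_pos hm β]

lemma Φ_neg {y : ℝ} (hy : y ≤ 0) : Φ β m y = m := by
  rw [Φ, max_eq_right hy, zero_rpow (by linarith), add_zero, ← rpow_mul hm.le,
    mul_one_div_cancel (by linarith), rpow_one]

lemma ψ_nonneg (y : ℝ) : 0 ≤ ψ β m y :=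
  rpow_nonneg (div_nonneg (le_max_right _ _) (Φ_pos hβ hm y).le) _

lemma ψ_lt (y : ℝ) : ψ β m y < 1 :=
  rpow_lt_one (div_nonneg (le_max_right _ _) (Φ_pos hβ hm y).le)
    ((div_lt_one (Φ_pos hβ hm y)).2 (lt_Φ hβ hm y)) (by linarith)

omit hm in
lemma pp_deriv (y : ℝ) : HasDerivAt (fun y : ℝ => max y 0 ^ β) (β * max y 0 ^ (β - 1)) y := by
  rcases lt_trichotomy y 0 with h | rfl | h
  · rw [max_eq_right h.le, zero_rpow (by linarith), mul_zero]
    refine (hasDerivAt_const y (0 : ℝ)).congr_of_eventuallyEq ?_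
    filter_upwards [Iio_mem_nhds h] with z hz
    rw [max_eq_right (le_of_lt hz), zero_rpow (by linarith)]
  · rw [max_self, ← hasDerivWithinAt_univ, ← Iic_union_Ici (a := (0 : ℝ))]
    apply HasDerivWithinAt.union
    · rw [zero_rpow (by linarith), mul_zero]
      refine (hasDerivWithinAt_const (0 : ℝ) _ (0 : ℝ)).congr (fun z hz => ?_) ?_
      · rw [max_eq_right hz, zero_rpow (by linarith)]
      · rw [max_self, zero_rpow (by linarith)]
    · refine (hasDerivAt_rpow_const (Or.inr hβ.le)).hasDerivWithinAt.congr (fun z hz => ?_) ?_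
      · rw [max_eq_left hz]
      · rw [max_self]
  · rw [max_eq_left h.le]
    refine (hasDerivAt_rpow_const (Or.inr hβ.le)).congr_of_eventuallyEq ?_
    filter_upwards [Ioi_mem_nhds h] with z hz
    rw [max_eq_left (le_of_lt hz)]

lemma Φ_deriv (y : ℝ) : HasDerivAt (Φ β m) (ψ β m y) y := by
  have h := ((pp_deriv hβ y).const_add (m ^ β)).rpow_const (p := 1 / β)
    (Or.inl (A_pos hβ hm y).ne')
  refine h.congr_deriv ?_
  have hb : β ≠ 0 := by linarith
  rw [ψ, div_rpow (le_max_right _ _) (Φ_pos hβ hm y).le, Φ, ← rpow_mul (A_pos hβ hm y).le,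
    show 1 / β - 1 = -(1 / β * (β - 1)) by field_simp; ring, rpow_neg (A_pos hβ hm y).le]
  field_simp

lemma ψ_cont : Continuous (ψ β m) := by
  have : Continuous (Φ β m) := continuous_iff_continuousAt.2 fun y =>
    (Φ_deriv hβ hm y).continuousAt
  exact ((continuous_id.max continuous_const).div this
    (fun y => (Φ_pos hβ hm y).ne')).rpow_const (fun _ => Or.inr (by linarith))

lemma ψ_pow {α : ℝ} (h : (β - 1) * α = β) (y : ℝ) :
    ψ β m y ^ α * Φ β m y = ψ β m y * y := by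
  have h0 := div_nonneg (le_max_right y 0) (Φ_pos hβ hm y).le
  have hΦ := (Φ_pos hβ hm y).ne'
  rw [ψ, ← rpow_mul h0, h]
  rcases le_or_gt y 0 with hy | hy
  · rw [max_eq_right hy, zero_div, zero_rpow (by linarith), zero_rpow (by linarith)]; simp
  · rw [max_eq_left hy.le, rpow_sub_one (div_pos hy (Φ_pos hβ hm y)).ne']
    field_simp

lemma G_anti : StrictAnti fun y => Φ β m y - y :=
  strictAnti_of_hasDerivAt_neg (f' := fun y => ψ β m y - 1)
    (fun y => (Φ_deriv hβ hm y).sub (hasDerivAt_id y)) (fun y => by linarith [ψ_lt hβ hm y])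

end

noncomputable def be (α : ℝ) : ℝ := α / (α - 1)

section
variable {α : ℝ} (hα : 1 < α)
include hα

lemma be_gt : 1 < be α := by rw [be, lt_div_iff₀ (by linarith)]; linarith
lemma be_id : (be α - 1) * α = be α := by
  have : α - 1 ≠ 0 := by linarith
  rw [be]; field_simp; ring

lemma a_pos {t : ℝ} (ht : 0 < t) : 0 < a α t := rpow_pos_of_pos (by positivity) _

lemma a_pow {t : ℝ} (ht : 0 < t) : a α t ^ α = (α * t)⁻¹ := by
  rw [a, ← rpow_mul (by positivity), div_mul_cancel₀ _ (by linarith), rpow_neg_one]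

lemma a_deriv {t : ℝ} (ht : 0 < t) : HasDerivAt (a α) (-(a α t * (α * t)⁻¹)) t := by
  have h := ((hasDerivAt_id t).const_mul α).rpow_const (p := -1 / α)
    (Or.inl (by simp only [id]; positivity))
  refine h.congr_deriv ?_
  simp only [id, a]
  rw [rpow_sub_one (by positivity)]
  field_simp

lemma fan_eq {m t : ℝ} (hm : 0 < m) (ht : 0 < t) (ρ₂ ρ : ℝ) :
    fan α m ρ₂ t ρ = a α t * ψ (be α) m ((ρ - ρ₂) * a α t) := by
  have hβ := be_gt hα
  have ha := a_pos hα ht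
  have hs : 0 < α * t := by positivity
  unfold fan
  split_ifs with h
  · set x := (ρ - ρ₂) * a α t with hx
    have hr : 0 < ρ - ρ₂ := by linarith
    have hx0 : 0 < x := by positivity
    have hΦ := Φ_pos hβ hm x
    have e1 : ((ρ - ρ₂) / (α * m * t)) ^ (-α / (α - 1)) + α * t =
        (α * t) * (Φ (be α) m x / x) ^ be α := by
      rw [div_rpow hΦ.le hx0.le, Φ_pow hβ hm, max_eq_left hx0.le, add_div,
        div_self (rpow_pos_of_pos hx0 _).ne', mul_add, mul_one, neg_div, ← be]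
      congr 1
      have e2 : (α * t) ^ be α * a α t ^ be α = α * t := by
        rw [a, ← rpow_mul hs.le, ← rpow_add hs,
          show be α + -1 / α * be α = 1 by
            have := be_id hα
            field_simp; linarith, rpow_one]
      rw [rpow_neg (by positivity), div_rpow hr.le (by positivity), hx, mul_rpow hr.le ha.le,
        show α * m * t = m * (α * t) by ring, mul_rpow hm.le hs.le]
      have := rpow_pos_of_pos hr (be α)
      have := rpow_pos_of_pos ha (be α)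
      have := rpow_pos_of_pos hm (be α)
      have := rpow_pos_of_pos hs (be α)
      field_simp
      linarith
    rw [e1, mul_rpow hs.le (by positivity), ← rpow_mul (by positivity), ψ, max_eq_left hx0.le,
      show be α * (-1 / α) = -(be α - 1) by
        have := be_id hα
        field_simp; linarith, rpow_neg (by positivity), ← inv_rpow (by positivity), inv_div]
    rfl
  · have : (ρ - ρ₂) * a α t ≤ 0 := mul_nonpos_of_nonpos_of_nonneg (by linarith) ha.le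
    rw [ψ, max_eq_right this, zero_div, zero_rpow (by linarith), mul_zero]

omit hα in
lemma int_congr {f g : ℝ → ℝ} {x y : ℝ} (h : x ≤ y) (hg : Continuous g)
    (e : ∀ σ ∈ Ioo x y, f σ = g σ) :
    IntervalIntegrable f volume x y ∧ ∫ σ in x..y, f σ = ∫ σ in x..y, g σ := by
  constructor
  · rw [intervalIntegrable_iff_integrableOn_Ioo_of_le h]
    exact ((hg.integrableOn_Icc (a := x) (b := y)).mono_set Ioo_subset_Icc_self).congr_fun
      (fun σ hσ => (e σ hσ).symm) measurableSet_Ioo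
  · rw [intervalIntegral.integral_of_le h, intervalIntegral.integral_of_le h,
      integral_Ioc_eq_integral_Ioo, integral_Ioc_eq_integral_Ioo]
    exact setIntegral_congr_fun measurableSet_Ioo e

lemma mass_eq {m ρ₁ ρ₂ t : ℝ} {S₁ S₂ : ℝ → ℝ} (hm : 0 < m) (ht : 0 < t) (h0 : 0 < ρ₁)
    (h1 : ρ₁ ≤ S₁ t) (h2 : S₁ t ≤ S₂ t) :
    mass α m ρ₁ ρ₂ S₁ S₂ t (S₁ t) = (S₁ t - ρ₁) * a α t ∧
    mass α m ρ₁ ρ₂ S₁ S₂ t (S₂ t) = (S₁ t - ρ₁) * a α t +
      (Φ (be α) m ((S₂ t - ρ₂) * a α t) - Φ (be α) m ((S₁ t - ρ₂) * a α t)) := by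
  have hβ := be_gt hα
  have i1 := int_congr (f := u α m ρ₁ ρ₂ S₁ S₂ t) (g := fun _ => 0) h0.le continuous_const
    (fun σ hσ => by
      rw [u, if_neg (fun h => by linarith [h.1, hσ.2]), if_neg (fun h => by linarith [h.1, hσ.2])])
  have i2 := int_congr (f := u α m ρ₁ ρ₂ S₁ S₂ t) (g := fun _ => a α t) h1 continuous_const
    (fun σ hσ => by rw [u, if_pos (mem_Ioo.1 hσ)])
  have hc : Continuous fun σ => a α t * ψ (be α) m ((σ - ρ₂) * a α t) :=
    continuous_const.mul ((ψ_cont hβ hm).comp (by fun_prop))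
  have i3 := int_congr (f := u α m ρ₁ ρ₂ S₁ S₂ t) h2 hc
    (fun σ hσ => by
      rw [u, if_neg (fun h => by linarith [h.2, hσ.1]), if_pos (mem_Ioo.1 hσ), fan_eq hα hm ht])
  have e1 : mass α m ρ₁ ρ₂ S₁ S₂ t (S₁ t) = (S₁ t - ρ₁) * a α t := by
    rw [mass, ← intervalIntegral.integral_add_adjacent_intervals i1.1 i2.1, i1.2, i2.2]; simp
  refine ⟨e1, ?_⟩
  rw [mass, ← intervalIntegral.integral_add_adjacent_intervals (i1.1.trans i2.1) i3.1, i3.2,
    ← mass, e1]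
  congr 1
  apply intervalIntegral.integral_eq_sub_of_hasDerivAt
    (f := fun σ => Φ (be α) m ((σ - ρ₂) * a α t)) _ (hc.intervalIntegrable _ _)
  intro σ _
  exact ((Φ_deriv hβ hm _).comp σ
    (((hasDerivAt_id σ).sub_const ρ₂).mul_const (a α t))).congr_deriv (by simp; ring)

lemma D_deriv {m ρ₂ t v : ℝ} {S : ℝ → ℝ} (hm : 0 < m) (ht : 0 < t) (h : HasDerivAt S v t) :
    HasDerivAt (fun t => Φ (be α) m ((S t - ρ₂) * a α t))
      (ψ (be α) m ((S t - ρ₂) * a α t) * (v * a α t - (S t - ρ₂) * a α t * (α * t)⁻¹)) t :=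
  ((Φ_deriv (be_gt hα) hm _).comp t ((h.sub_const ρ₂).mul (a_deriv hα ht))).congr_deriv
    (by simp only [Pi.mul_apply]; ring)

lemma D1_deriv {m ρ₁ ρ₂ t v : ℝ} {S : ℝ → ℝ} (hm : 0 < m) (ht : 0 < t) (h : HasDerivAt S v t) :
    HasDerivAt (fun t => (S t - ρ₁) * a α t - Φ (be α) m ((S t - ρ₂) * a α t))
      ((v - speed α ((S t - ρ₁) * a α t) (fan α m ρ₂ t (S t)) (a α t)) *
          (a α t * (1 - ψ (be α) m ((S t - ρ₂) * a α t))) -
        (α * t)⁻¹ * ψ (be α) m ((S t - ρ₂) * a α t) ^ α *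
          ((S t - ρ₁) * a α t - Φ (be α) m ((S t - ρ₂) * a α t))) t := by
  refine (((h.sub_const ρ₁).mul (a_deriv hα ht)).sub (D_deriv hα hm ht h)).congr_deriv ?_
  have ha := a_pos hα ht
  have h1 := ψ_pow (be_gt hα) hm (be_id hα) ((S t - ρ₂) * a α t)
  have h2 := ψ_lt (be_gt hα) hm ((S t - ρ₂) * a α t)
  rw [speed, fan_eq hα hm ht, mul_rpow ha.le (ψ_nonneg (be_gt hα) hm _), a_pow hα ht]
  set p := ψ (be α) m ((S t - ρ₂) * a α t)
  have h3 : a α t * p - a α t ≠ 0 := by nlinarith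
  have h4 : ((α * t)⁻¹ * p ^ α - (α * t)⁻¹) / (a α t * p - a α t) * (a α t * (1 - p)) =
      (α * t)⁻¹ - (α * t)⁻¹ * p ^ α := by
    rw [div_mul_eq_mul_div, div_eq_iff h3]; ring
  linear_combination (S t - ρ₁) * a α t * h4 - (α * t)⁻¹ * h1

lemma sp2 {m ρ₂ t s : ℝ} (hm : 0 < m) (ht : 0 < t) :
    ψ (be α) m ((s - ρ₂) * a α t) *
      (speed α (Φ (be α) m ((s - ρ₂) * a α t)) 0 (fan α m ρ₂ t s) * a α t -
        (s - ρ₂) * a α t * (α * t)⁻¹) = 0 := by
  have ha := a_pos hα ht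
  have h1 := ψ_pow (be_gt hα) hm (be_id hα) ((s - ρ₂) * a α t)
  rw [speed, fan_eq hα hm ht, mul_rpow ha.le (ψ_nonneg (be_gt hα) hm _), a_pow hα ht,
    zero_rpow (by linarith)]
  set p := ψ (be α) m ((s - ρ₂) * a α t)
  by_cases hp : p = 0
  · simp [hp]
  have h4 : (0 - (α * t)⁻¹ * p ^ α) / (0 - a α t * p) * (a α t * p) = (α * t)⁻¹ * p ^ α := by
    field_simp; ring
  linear_combination Φ (be α) m ((s - ρ₂) * a α t) * h4 + (α * t)⁻¹ * h1

lemma a_lim : Tendsto (a α) atTop (𝓝 0) := by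
  have h := (tendsto_rpow_neg_atTop (y := 1 / α) (by positivity)).comp
    (tendsto_id.const_mul_atTop (r := α) (by linarith))
  refine h.congr fun t => ?_
  simp [a, neg_div]

lemma merge {ρ₁ ρ₂ m₁ m₂ : ℝ} (h0 : 0 < ρ₁) (hm : 0 < m₁) {S₁ S₂ : ℝ → ℝ}
    (h : TwoBump α ρ₁ ρ₂ m₁ m₂ S₁ S₂) : ∃ t > 0, S₁ t = S₂ t := by
  by_contra hn
  push Not at hn
  have hβ := be_gt hα
  have hr := fun t (ht : 0 < t) =>
    h.rh t ht fun s hs => lt_of_le_of_ne (h.order s hs.1).2 (hn s hs.1)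
  have me := fun t (ht : 0 < t) =>
    mass_eq hα (ρ₂ := ρ₂) hm ht h0 (h.order t ht).1 (h.order t ht).2
  obtain ⟨t₀, ht₀, hi⟩ := h.init
  obtain ⟨i1, i2, -⟩ := hi t₀ ⟨ht₀, le_rfl⟩
  let D : ℝ → ℝ := fun t => (S₁ t - ρ₁) * a α t - Φ (be α) m₁ ((S₁ t - ρ₂) * a α t)
  have hD : ∀ t > 0, HasDerivAt (fun t => D t ^ 2)
      (-(2 * (α * t)⁻¹ * ψ (be α) m₁ ((S₁ t - ρ₂) * a α t) ^ α * D t ^ 2)) t := by
    intro t ht
    have := D1_deriv hα (ρ₁ := ρ₁) (ρ₂ := ρ₂) hm ht (hr t ht).1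
    rw [(me t ht).1, sub_self, zero_mul, zero_sub] at this
    exact (this.pow 2).congr_deriv (by simp only [D]; ring)
  have anti : ∀ (f f' : ℝ → ℝ), (∀ t > 0, HasDerivAt f (f' t) t) → (∀ t > 0, f' t ≤ 0) →
      ∀ t ≥ t₀, f t ≤ f t₀ := by
    intro f f' h1 h2 t ht
    refine antitoneOn_of_deriv_nonpos (convex_Ioi 0)
      (fun s hs => (h1 s hs).continuousAt.continuousWithinAt)
      (fun s hs => (h1 s (by simpa using hs)).differentiableAt.differentiableWithinAt)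
      (fun s hs => ?_) ht₀ (lt_of_lt_of_le ht₀ ht) ht
    rw [(h1 s (by simpa using hs)).deriv]; exact h2 s (by simpa using hs)
  have hD0 : ∀ t ≥ t₀, D t = 0 := by
    intro t ht
    have h1 := anti _ _ hD (fun s hs => by
      have := ψ_nonneg hβ hm ((S₁ s - ρ₂) * a α s)
      rw [neg_nonpos]; positivity) t ht
    have h2 : D t₀ = 0 := by
      simp only [D]
      rw [← (me t₀ ht₀).1, i2, Φ_neg hβ hm
        (mul_nonpos_of_nonpos_of_nonneg (by linarith) (a_pos hα ht₀).le), sub_self]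
    simp only [h2] at h1
    nlinarith [sq_nonneg (D t)]
  let E : ℝ → ℝ := fun t => Φ (be α) m₁ ((S₂ t - ρ₂) * a α t)
  have hE : ∀ t ≥ t₀, E t = E t₀ := by
    intro t ht
    have hd : ∀ s ≥ t₀, HasDerivAt E 0 s := by
      intro s hs
      have hs0 := lt_of_lt_of_le ht₀ hs
      have := D_deriv hα (ρ₂ := ρ₂) hm hs0 (hr s hs0).2
      have e : mass α m₁ ρ₁ ρ₂ S₁ S₂ s (S₂ s) = Φ (be α) m₁ ((S₂ s - ρ₂) * a α s) := by
        rw [(me s hs0).2]; have := hD0 s hs; simp only [D] at this; linarith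
      rwa [e, sp2 hα hm hs0] at this
    exact constant_of_has_deriv_right_zero (a := t₀) (b := t)
      (fun s hs => (hd s hs.1).continuousAt.continuousWithinAt)
      (fun s hs => (hd s hs.1).hasDerivWithinAt) t ⟨ht, le_rfl⟩
  have hδ := lt_Φ hβ hm ((S₂ t₀ - ρ₂) * a α t₀)
  have hl : Tendsto (fun t => (ρ₂ - ρ₁) * a α t) atTop (𝓝 0) := by
    simpa using (a_lim hα).const_mul (ρ₂ - ρ₁)
  obtain ⟨t, h1, h2⟩ := ((hl.eventually (gt_mem_nhds (sub_pos.2 hδ))).and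
    (eventually_ge_atTop t₀)).exists
  have ht := lt_of_lt_of_le ht₀ h2
  have h3 := (G_anti hβ hm).antitone (mul_le_mul_of_nonneg_right
    (sub_le_sub_right (h.order t ht).2 ρ₂) (a_pos hα ht).le)
  have h4 := hD0 t h2
  have h5 := hE t h2
  simp only [D, E] at h3 h4 h5
  have h6 : max ((S₂ t - ρ₂) * a α t) 0 ≤ max ((S₂ t₀ - ρ₂) * a α t₀) 0 := by
    rw [← rpow_le_rpow_iff (le_max_right _ _) (le_max_right _ _) (by linarith : 0 < be α)]
    have a1 := Φ_pow hβ hm ((S₂ t - ρ₂) * a α t)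
    have a2 := Φ_pow hβ hm ((S₂ t₀ - ρ₂) * a α t₀)
    rw [h5] at a1; linarith
  have h7 := le_max_left ((S₂ t - ρ₂) * a α t) 0
  nlinarith

lemma exist {ρ₁ ρ₂ m₁ m₂ : ℝ} (h0 : 0 < ρ₁) (h12 : ρ₁ < ρ₂) (hm : 0 < m₁) (hm' : 0 < m₂) :
    ∃ S₁ S₂, TwoBump α ρ₁ ρ₂ m₁ m₂ S₁ S₂ := by
  have hβ := be_gt hα
  have hA : 0 < (m₁ + m₂) ^ be α - m₁ ^ be α :=
    sub_pos.2 (rpow_lt_rpow hm.le (by linarith) (by linarith))
  obtain ⟨X, hX, hΦX⟩ : ∃ X > 0, Φ (be α) m₁ X = m₁ + m₂ := by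
    refine ⟨((m₁ + m₂) ^ be α - m₁ ^ be α) ^ (1 / be α), rpow_pos_of_pos hA _, ?_⟩
    rw [Φ, max_eq_left (rpow_pos_of_pos hA _).le, ← rpow_mul hA.le,
      one_div_mul_cancel (by linarith), rpow_one, add_sub_cancel, ← rpow_mul (by linarith),
      mul_one_div_cancel (by linarith), rpow_one]
  set G : ℝ → ℝ := fun y => Φ (be α) m₁ y - y with hG
  have Ga : StrictAnti G := G_anti hβ hm
  have Gd : ∀ y, HasDerivAt G (ψ (be α) m₁ y - 1) y := fun y =>
    (Φ_deriv hβ hm y).sub (hasDerivAt_id y)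
  set g := Function.invFun G
  have gG : ∀ y, g (G y) = y := Function.leftInverse_invFun Ga.injective
  have Gg : ∀ z, G X < z → G (g z) = z := by
    intro z hz
    have := intermediate_value_Icc' (f := G) (a := min 0 (m₁ - z)) (b := X)
      ((min_le_left _ _).trans hX.le) (fun y _ => (Gd y).continuousAt.continuousWithinAt)
    obtain ⟨y, -, rfl⟩ := this (show z ∈ Icc _ _ from ⟨hz.le, by
      simp only [hG]; rw [Φ_neg hβ hm (min_le_left _ _)]; linarith [min_le_right 0 (m₁ - z)]⟩)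
    rw [gG]
  have gX : ∀ z, G X < z → g z < X := fun z hz => Ga.lt_iff_gt.1 (by rw [Gg z hz]; exact hz)
  have gd : ∀ z, G X < z → DifferentiableAt ℝ g z := by
    intro z hz
    have hc : ContinuousAt (fun z => -g z) z := by
      apply continuousAt_of_monotoneOn_of_image_mem_nhds (s := Ioi (G X)) _ (Ioi_mem_nhds hz)
      · refine mem_of_superset (Ioi_mem_nhds (neg_lt_neg (gX z hz))) fun w hw => ?_
        exact ⟨G (-w), Ga (by simp only [mem_Ioi] at hw; linarith), by simp [gG]⟩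
      · intro x hx y hy hxy
        exact neg_le_neg (Ga.le_iff_ge.1 (by rw [Gg x hx, Gg y hy]; exact hxy))
    have hc' : ContinuousAt g z := hc.neg.congr (Eventually.of_forall fun y => neg_neg _)
    refine (HasDerivAt.of_local_left_inverse hc' (Gd _) ?_ ?_).differentiableAt
    · linarith [ψ_lt hβ hm (g z)]
    · filter_upwards [Ioi_mem_nhds hz] with y hy using Gg y hy
  let S₂ : ℝ → ℝ := fun t => ρ₂ + X / a α t
  let T : ℝ → ℝ := fun t => ρ₂ + g ((ρ₂ - ρ₁) * a α t) / a α t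
  let S₁ : ℝ → ℝ := fun t => if G X < (ρ₂ - ρ₁) * a α t then T t else S₂ t
  have y2 : ∀ t > 0, (S₂ t - ρ₂) * a α t = X := fun t ht => by
    have := (a_pos hα ht).ne'; simp only [S₂]; field_simp; ring
  have y1 : ∀ t > 0, (T t - ρ₂) * a α t = g ((ρ₂ - ρ₁) * a α t) := fun t ht => by
    have := (a_pos hα ht).ne'; simp only [T]; field_simp; ring
  have D0 : ∀ t > 0, G X < (ρ₂ - ρ₁) * a α t →
      (T t - ρ₁) * a α t = Φ (be α) m₁ ((T t - ρ₂) * a α t) := by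
    intro t ht h
    have e := Gg _ h
    rw [← y1 t ht] at e
    simp only [hG] at e
    linarith
  have ord : ∀ t > 0, ρ₁ ≤ S₁ t ∧ S₁ t ≤ S₂ t := by
    intro t ht
    have ha := a_pos hα ht
    simp only [S₁]
    split_ifs with h
    · constructor
      · have := Φ_pos hβ hm ((T t - ρ₂) * a α t)
        rw [← D0 t ht h] at this
        linarith [(mul_pos_iff_of_pos_right ha).1 this]
      · have := gX _ h
        rw [← y1 t ht, ← y2 t ht] at this
        nlinarith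
    · exact ⟨by have := div_pos hX ha; simp only [S₂]; linarith, le_rfl⟩
  have me := fun t (ht : 0 < t) =>
    mass_eq hα (ρ₂ := ρ₂) hm ht h0 (ord t ht).1 (ord t ht).2
  refine ⟨S₁, S₂, ord, ?_, ?_⟩
  · refine ⟨((ρ₂ - ρ₁) / m₁) ^ α / α, by have := sub_pos.2 h12; positivity, fun t ht => ?_⟩
    have ha := a_pos hα ht.1
    have h1 : m₁ ≤ (ρ₂ - ρ₁) * a α t := by
      have hρ := sub_pos.2 h12
      have h2 : α * t ≤ ((ρ₂ - ρ₁) / m₁) ^ α := by
        have := ht.2; rwa [le_div_iff₀ (by linarith), mul_comm] at this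
      have h3 := rpow_le_rpow_of_nonpos (by have := ht.1; positivity) h2
        (show -1 / α ≤ 0 from div_nonpos_of_nonpos_of_nonneg (by norm_num) (by linarith))
      rw [← rpow_mul (by positivity), show α * (-1 / α) = -1 by field_simp, rpow_neg_one,
        inv_div, div_le_iff₀ hρ, mul_comm] at h3
      exact h3
    have G0 : G 0 = m₁ := by simp only [hG]; rw [Φ_neg hβ hm le_rfl, sub_zero]
    have h2 : G X < (ρ₂ - ρ₁) * a α t := by have := Ga hX; linarith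
    have h3 : g ((ρ₂ - ρ₁) * a α t) ≤ 0 := Ga.le_iff_ge.1 (by rw [Gg _ h2]; linarith)
    have e : S₁ t = T t := if_pos h2
    rw [(me t ht.1).1, (me t ht.1).2, e, D0 t ht.1 h2, y1 t ht.1, y2 t ht.1, Φ_neg hβ hm h3, hΦX]
    refine ⟨?_, rfl, by ring⟩
    have := div_nonpos_of_nonpos_of_nonneg h3 ha.le
    simp only [T]; linarith
  · intro t ht hs
    have ha := a_pos hα ht
    have h2 : G X < (ρ₂ - ρ₁) * a α t := by
      by_contra h
      exact (hs t ⟨ht, le_rfl⟩).ne (if_neg h)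
    have e : S₁ t = T t := if_pos h2
    have ad := (a_deriv hα ht).differentiableAt
    have ev : ∀ᶠ s in 𝓝 t, G X < (ρ₂ - ρ₁) * a α s :=
      (ad.const_mul (ρ₂ - ρ₁)).continuousAt.eventually (lt_mem_nhds h2)
    rw [(me t ht).1, (me t ht).2, e]
    constructor
    · have Td : DifferentiableAt ℝ T t :=
        ((((gd _ h2).comp t (ad.const_mul (ρ₂ - ρ₁)))).div ad ha.ne').const_add ρ₂
      have h3 := D1_deriv hα (ρ₁ := ρ₁) (ρ₂ := ρ₂) hm ht Td.hasDerivAt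
      have h4 := h3.unique ((hasDerivAt_const t (0 : ℝ)).congr_of_eventuallyEq (by
        filter_upwards [ev, Ioi_mem_nhds ht] with s h1 h5
        rw [D0 s h5 h1, sub_self]))
      rw [← D0 t ht h2, sub_self, mul_zero, sub_zero, mul_eq_zero] at h4
      have h5 := mul_pos ha (sub_pos.2 (ψ_lt hβ hm ((T t - ρ₂) * a α t)))
      rw [← sub_eq_zero.1 (h4.resolve_right h5.ne')]
      refine Td.hasDerivAt.congr_of_eventuallyEq ?_
      filter_upwards [ev] with s h1 using if_pos h1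
    · have h3 := sp2 hα (ρ₂ := ρ₂) (s := S₂ t) hm ht
      have h4 : 0 < ψ (be α) m₁ ((S₂ t - ρ₂) * a α t) := by
        rw [y2 t ht, ψ, max_eq_left hX.le]
        exact rpow_pos_of_pos (div_pos hX (Φ_pos hβ hm X)) _
      have h5 := (mul_eq_zero.1 h3).resolve_left h4.ne'
      rw [D0 t ht h2, add_sub_cancel]
      refine (((hasDerivAt_const t X).div (a_deriv hα ht) ha.ne').const_add ρ₂).congr_deriv ?_
      rw [y2 t ht] at h5 ⊢
      rw [div_eq_iff (by positivity)]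
      linear_combination (-a α t) * h5

end

theorem result (α ρ₁ ρ₂ m₁ m₂ : ℝ) (hα : 1 < α) (h0 : 0 < ρ₁) (h12 : ρ₁ < ρ₂) (hm₁ : 0 < m₁)
    (hm₂ : 0 < m₂) :
    (∃ S₁ S₂, TwoBump α ρ₁ ρ₂ m₁ m₂ S₁ S₂) ∧
      ∀ S₁ S₂, TwoBump α ρ₁ ρ₂ m₁ m₂ S₁ S₂ → ∃ t > 0, S₁ t = S₂ t :=
  ⟨exist hα h0 h12 hm₁ hm₂, fun _ _ h => merge hα h0 hm₁ h⟩

end Pool.Agent.Results.MP_5288f0_an.Merge
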